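import Pool.Agent.Helper73.Dn.Goals
import Pool.Agent.Helper59.Rg.MEAS

/-!
# Packet DN-MEAS (MP_70814c_an)
-/

set_option autoImplicit false

namespace Pool.Agent.Helper15.Dn

open MeasureTheory Pool.Agent.Helper73.Dn Pool.Agent.Helper66.Rig Pool.Agent.Helper59.Rg

theorem meas (h : SumC) : Meas := by
  intro ε M J hε
  obtain ⟨n0, hn0⟩ := h ε M J hε
  refine ⟨n0, fun n hn S hS hS1 hS2 σ hσ hz => ?_⟩
  rw [one_sub_fc σ hz 1]
  simp only [one_sub_fc σ hz]
  rw [← integral_const_mul, ← integral_finsetSum _ (fun k _ => int_re σ hz (2 ^ k + 3 ^ k))]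
  refine integral_mono_ae ((int_re σ hz 1).const_mul M)
    (integrable_finsetSum _ fun k _ => int_re σ hz (2 ^ k + 3 ^ k)) ?_
  filter_upwards [hz] with z h1
  have hpi := Real.pi_pos
  have h2 := hn0 n hn S hS hS1 hS2 (Complex.arg z / (2 * Real.pi))
  have e1 : 2 * Real.pi * (Complex.arg z / (2 * Real.pi)) = Complex.arg z := by field_simp
  have e2 : ∀ k : ℕ, 2 * Real.pi * ((2 ^ k + 3 ^ k) * (Complex.arg z / (2 * Real.pi))) =
      ((2 ^ k + 3 ^ k : ℕ) : ℝ) * Complex.arg z := by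
    intro k
    push_cast
    field_simp
  simp only [e2] at h2
  rw [e1] at h2
  show M * (1 - (z ^ 1).re) ≤ ∑ k ∈ S, (1 - (z ^ (2 ^ k + 3 ^ k)).re)
  simp only [pow_re h1]
  rw [Nat.cast_one, one_mul]
  exact h2

end Pool.Agent.Helper15.Dn
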